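import Pool.Agent.Helper14D.Stm2
import Pool.Agent.Helper14C.Tt
import Pool.Agent.Helper57K1.VD.Growth
import Pool.Agent.Helper24.VD.Alg

/-!
# Comparison of slopes, for `Helper14D`
-/

set_option autoImplicit false

open MvPolynomial

namespace Pool.Agent.Helper28K1.VD

open Module
open Pool.Agent.Helper14C Pool.Agent.TH922.KC
open Pool.Agent.Helper14D
open Pool.Agent.Helper57K1.VD (fd_pow fd_mul)
open Pool.Agent.Helper24.VD (prod_mem_prod')

section

variable {κ Ω : Type} [Field κ] [Field Ω] [Algebra κ Ω]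

lemma fr_mul (A B : Submodule κ Ω) [FiniteDimensional κ A] [FiniteDimensional κ B] :
    finrank κ (A * B : Submodule κ Ω) ≤ finrank κ A * finrank κ B := by
  have h := LinearMap.finrank_range_le (Submodule.mulMap A B)
  rw [Submodule.mulMap_range, Module.finrank_tensorProduct] at h
  exact h

/-- the forms of degree `t` are the span of the monomials -/
lemma V_span {X : Type} [Finite X] (z : X → Ω) (t : ℕ) :
    V κ z t = Submodule.span κ (Set.range fun μ : It X t => aeval z (monomial μ.1 (1 : κ))) := by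
  apply le_antisymm
  · rintro _ ⟨p, hp, rfl⟩
    have hp' : p.IsHomogeneous t := hp
    change aeval z p ∈ _
    have hs : aeval z p = ∑ μ ∈ p.support, p.coeff μ • aeval z (monomial μ (1 : κ)) := by
      conv_lhs => rw [p.as_sum, map_sum]
      refine Finset.sum_congr rfl fun μ _ => ?_
      rw [← map_smul, smul_monomial, smul_eq_mul, mul_one]
    rw [hs]
    refine Submodule.sum_mem _ fun μ hμ => Submodule.smul_mem _ _ ?_
    have hdeg : μ.degree = t := by
      by_contra hne
      exact (mem_support_iff.mp hμ) (hp'.coeff_eq_zero hne)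
    exact Submodule.subset_span ⟨⟨μ, hdeg⟩, rfl⟩
  · rw [Submodule.span_le]
    rintro _ ⟨μ, rfl⟩
    exact ⟨_, isHomogeneous_monomial _ μ.2, rfl⟩

/-- the forms of degree `t` are the power of the space of the linear forms -/
lemma V_pow {X : Type} [Finite X] (z : X → Ω) (t : ℕ) :
    V κ z t = Submodule.span κ (Set.range z) ^ t := by
  apply le_antisymm
  · rw [V_span, Submodule.span_le]
    rintro _ ⟨⟨μ, hμ⟩, rfl⟩
    subst hμ
    change aeval z (monomial μ (1 : κ)) ∈ _
    rw [aeval_monomial, map_one, one_mul, Finsupp.prod]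
    have e : μ.degree = ∑ i ∈ μ.support, μ i := rfl
    rw [e, ← Finset.prod_pow_eq_pow_sum]
    exact prod_mem_prod' _ _ _ fun i _ =>
      Submodule.pow_mem_pow _ (Submodule.subset_span (Set.mem_range_self i)) _
  · induction t with
    | zero =>
      rw [pow_zero, Submodule.one_le]
      exact ⟨1, isHomogeneous_one _ _, map_one (aeval z)⟩
    | succ t ih =>
      rw [pow_succ]
      refine (mul_le_mul' ih le_rfl).trans ?_
      rw [Submodule.mul_le]
      intro a ha b hb
      induction hb using Submodule.span_induction with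
      | mem b hb =>
        obtain ⟨i, rfl⟩ := hb
        obtain ⟨p, hp, rfl⟩ := ha
        refine ⟨p * MvPolynomial.X i, IsHomogeneous.mul hp (isHomogeneous_X κ i), ?_⟩
        simp
      | zero => rw [mul_zero]; exact Submodule.zero_mem _
      | add x y _ _ hx hy => rw [mul_add]; exact Submodule.add_mem _ hx hy
      | smul c x _ hx => rw [mul_smul_comm]; exact Submodule.smul_mem _ _ hx

/-- eventual slopes -/
lemma slope {X : Type} [Finite X] (z : X → Ω)
    (h : ∃ C : ℕ, ∀ t, finrank κ (V κ z t) ≤ C * (t + 1)) :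
    ∃ e K : ℕ, ∀ n ≥ K, finrank κ (V κ z (n + 1)) = finrank κ (V κ z n) + e := by
  obtain ⟨I, hI, -, -, hf'⟩ := hom_ideal (K := κ) z
  obtain ⟨C, hC⟩ := h
  obtain ⟨K, e, hK⟩ := ev_lin I hI ⟨C, fun t => by rw [hf']; exact hC t⟩
  refine ⟨e, K, fun n hn => ?_⟩
  rw [← hf', ← hf']
  exact hK n hn

end

theorem t_cmp (h1 : S_reduce) (h2 : S_growth) : S_cmp := by
  classical
  intro κ Ω _ _ _ N D kk y U hkk hy hU nU hnU hrU nY hnY hrY n0 hn0 hgr
  obtain ⟨C, hC⟩ := hgr
  set Y : Submodule κ Ω := Submodule.span κ (Set.range y) with hY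
  set Q : Submodule κ Ω := Submodule.span κ (Set.range U) with hQ
  have hVy : ∀ t, V κ y t = Y ^ t := fun t => V_pow y t
  have hVU : ∀ t, V κ U t = Q ^ t := fun t => V_pow U t
  set P : Submodule κ Ω := Y ^ kk with hP
  have hPn : ∀ n, P ^ n = V κ y (kk * n) := fun n => by rw [hVy, hP, pow_mul]
  have : FiniteDimensional κ Y := FiniteDimensional.span_of_finite κ (Set.finite_range y)
  have : FiniteDimensional κ Q := FiniteDimensional.span_of_finite κ (Set.finite_range U)
  have : FiniteDimensional κ P := fd_pow Y kk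
  set W : Submodule κ Ω := P ⊔ Q with hW
  have : FiniteDimensional κ W := by rw [hW]; infer_instance
  -- the two reductions
  have r1 : ∀ e, W ^ (∑ j, nU j + e) ≤ P ^ e * W ^ (∑ j, nU j) := by
    refine h1 κ Ω P Q D U hQ nU hnU fun j => ?_
    obtain ⟨A, hA, hrel⟩ := hrU j
    refine ⟨fun i => aeval y (A i), fun i => ?_, hrel⟩
    rw [hPn]
    exact ⟨A i, hA i, rfl⟩
  have hne : Nonempty (It (Fin (N + 1)) kk) :=
    ⟨⟨Finsupp.single 0 kk, by simp⟩⟩
  obtain ⟨D', hD'⟩ : ∃ D', Fintype.card (It (Fin (N + 1)) kk) = D' + 1 :=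
    Nat.exists_eq_succ_of_ne_zero Fintype.card_ne_zero
  have e : Fin (D' + 1) ≃ It (Fin (N + 1)) kk := (Fintype.equivFinOfCardEq hD').symm
  have hPs : P = Submodule.span κ
      (Set.range fun j : Fin (D' + 1) => aeval y (monomial (e j).1 (1 : κ))) := by
    rw [hP, ← hVy, V_span]
    congr 1
    exact (e.surjective.range_comp
      (fun μ : It (Fin (N + 1)) kk => aeval y (monomial μ.1 (1 : κ)))).symm
  have hsumY : ∑ j, nY (e j) = ∑ α, nY α := Equiv.sum_comp e nY
  have r2 : ∀ f, W ^ (∑ α, nY α + f) ≤ Q ^ f * W ^ (∑ α, nY α) := by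
    have h3 := h1 κ Ω Q P D' (fun j => aeval y (monomial (e j).1 (1 : κ))) hPs
      (fun j => nY (e j)) (fun j => hnY _) (fun j => by
        obtain ⟨A, hA, hrel⟩ := hrY (e j)
        refine ⟨fun i => aeval U (A i), fun i => ?_, hrel⟩
        rw [← hVU]
        exact ⟨A i, hA i, rfl⟩)
    rw [hsumY, sup_comm] at h3
    exact h3
  have q1 : ∀ n, W ^ (n0 + n) ≤ P ^ n * W ^ n0 := by
    intro n
    have e1 : n0 + n = (∑ j, nU j + n) + ∑ α, nY α := by omega
    rw [e1, pow_add]
    refine (mul_le_mul' (r1 n) le_rfl).trans ?_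
    rw [mul_assoc, ← pow_add, ← hn0]
  have q2 : ∀ n, W ^ (n0 + n) ≤ Q ^ n * W ^ n0 := by
    intro n
    have e1 : n0 + n = (∑ α, nY α + n) + ∑ j, nU j := by omega
    rw [e1, pow_add]
    refine (mul_le_mul' (r2 n) le_rfl).trans ?_
    rw [mul_assoc, ← pow_add, add_comm (∑ α, nY α), ← hn0]
  -- the linear bound
  have hlin : ∃ C : ℕ, ∀ t, finrank κ (V κ U t) ≤ C * (t + 1) := by
    set w := finrank κ (W ^ n0 : Submodule κ Ω) with hw
    refine ⟨C * kk * w + C * w + ∑ s ∈ Finset.range n0, finrank κ (V κ U s), fun t => ?_⟩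
    rcases Nat.lt_or_ge t n0 with ht | ht
    · have h3 : finrank κ (V κ U t) ≤ ∑ s ∈ Finset.range n0, finrank κ (V κ U s) :=
        Finset.single_le_sum (f := fun s => finrank κ (V κ U s)) (fun _ _ => Nat.zero_le _)
          (Finset.mem_range.2 ht)
      nlinarith [Nat.zero_le (C * kk * w + C * w),
        Nat.zero_le ((∑ s ∈ Finset.range n0, finrank κ (V κ U s)) * t)]
    · obtain ⟨r, rfl⟩ := Nat.exists_eq_add_of_le ht
      have := fd_pow P r
      have := fd_pow W n0
      have := fd_mul (P ^ r) (W ^ n0)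
      have h3 : V κ U (n0 + r) ≤ P ^ r * W ^ n0 := by
        rw [hVU]
        exact (pow_le_pow_left' le_sup_right _).trans (q1 r)
      have h4 : finrank κ (V κ U (n0 + r)) ≤ (C * (kk * r + 1)) * w := by
        refine (Submodule.finrank_mono h3).trans ((fr_mul _ _).trans ?_)
        refine Nat.mul_le_mul ?_ le_rfl
        rw [hPn]
        exact hC _
      refine h4.trans ?_
      have h5 : C * (kk * r + 1) * w = C * kk * w * r + C * w := by ring
      rw [h5]
      have h6 : C * kk * w * r ≤ C * kk * w * (n0 + r + 1) :=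
        Nat.mul_le_mul le_rfl (by omega)
      have h7 : C * w ≤ C * w * (n0 + r + 1) := Nat.le_mul_of_pos_right _ (by omega)
      calc C * kk * w * r + C * w ≤ C * kk * w * (n0 + r + 1) + C * w * (n0 + r + 1) :=
            Nat.add_le_add h6 h7
        _ ≤ (C * kk * w + C * w + ∑ s ∈ Finset.range n0, finrank κ (V κ U s)) *
            (n0 + r + 1) := by
            rw [← Nat.add_mul]
            exact Nat.mul_le_mul (Nat.le_add_right _ _) le_rfl
  refine ⟨hlin, ?_⟩
  -- the slopes
  obtain ⟨a, Ka, ha⟩ := slope (κ := κ) y ⟨C, hC⟩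
  obtain ⟨b, Kb, hb⟩ := slope (κ := κ) U hlin
  have hadd : ∀ m n, Ka ≤ n → finrank κ (V κ y (n + m)) = finrank κ (V κ y n) + m * a := by
    intro m
    induction m with
    | zero => intro n _; simp
    | succ m ih =>
      intro n hn
      rw [← add_assoc, ha (n + m) (by omega), ih n hn]
      ring
  have hPne : P ≠ ⊥ := by
    obtain ⟨j, hj⟩ := Function.ne_iff.mp hy
    have hj' : y j ≠ 0 := hj
    intro h0
    have h3 : y j ^ kk ∈ P := Submodule.pow_mem_pow _ (Submodule.subset_span (Set.mem_range_self j)) _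
    rw [h0, Submodule.mem_bot] at h3
    exact pow_ne_zero _ hj' h3
  have hQne : Q ≠ ⊥ := by
    obtain ⟨j, hj⟩ := Function.ne_iff.mp hU
    have hj' : U j ≠ 0 := hj
    intro h0
    have h3 : U j ∈ Q := Submodule.subset_span (Set.mem_range_self j)
    rw [h0, Submodule.mem_bot] at h3
    exact hj' h3
  have s1 : ∃ K, ∀ n ≥ K, finrank κ (P ^ (n + 1) : Submodule κ Ω) =
      finrank κ (P ^ n : Submodule κ Ω) + kk * a := ⟨Ka, fun n hn => by
    rw [hPn, hPn, Nat.mul_succ]
    exact hadd kk (kk * n) (hn.trans (Nat.le_mul_of_pos_left n hkk))⟩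
  have s2 : ∃ K, ∀ n ≥ K, finrank κ (Q ^ (n + 1) : Submodule κ Ω) =
      finrank κ (Q ^ n : Submodule κ Ω) + b := ⟨Kb, fun n hn => by
    rw [← hVU, ← hVU]
    exact hb n hn⟩
  obtain ⟨ρ, σ, hρ, hσ, hle, heq⟩ := h2 κ Ω P Q hPne hQne D U hQ n0 q1 q2 (kk * a) b s1 s2
  exact ⟨a, b, ρ, σ, ⟨Ka, ha⟩, ⟨Kb, hb⟩, hρ, hσ, hle, heq⟩

end Pool.Agent.Helper28K1.VD
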