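import Pool.Agent.Helper14D.Stm3
import Pool.Agent.H89B.VD.Trace

/-!
# The concrete data (helper28)
-/

set_option autoImplicit false

open MvPolynomial

namespace Pool.Agent.Helper28K1.VD

open Pool.Agent.Helper14D

theorem lf_hom (N : ℕ) (i : Fin (2 * N)) : (lf N i).IsHomogeneous 1 := by
  unfold lf
  apply IsHomogeneous.sum
  intro j _
  have := (isHomogeneous_C (Fin (N + 1)) (((i : ℕ) : ℚ) ^ (j : ℕ))).mul (isHomogeneous_X ℚ j)
  simpa using this

theorem lf_ne (N : ℕ) (i : Fin (2 * N)) : lf N i ≠ 0 := by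
  intro h
  have h1 := congrArg (eval (Pi.single (0 : Fin (N + 1)) (1 : ℚ))) h
  unfold lf at h1
  rw [map_sum, Finset.sum_eq_single (0 : Fin (N + 1))] at h1
  · simp at h1
  · intro j _ hj
    simp [hj]
  · intro h2
    exact absurd (Finset.mem_univ _) h2

theorem pr_hom (N : ℕ) (s : Finset (Fin (2 * N))) :
    (∏ i ∈ s, lf N i).IsHomogeneous s.card := by
  have := IsHomogeneous.prod s (fun i => lf N i) (fun _ => 1) (fun i _ => lf_hom N i)
  simpa using this

theorem pr_ne (N : ℕ) (s : Finset (Fin (2 * N))) : ∏ i ∈ s, lf N i ≠ 0 :=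
  Finset.prod_ne_zero_iff.mpr fun i _ => lf_ne N i

theorem t_data : S_data := by
  intro N hN
  classical
  set F : ℕ := (2 * N).factorial with hF
  set M1 : ℕ := N.factorial * (2 + ∑ t : Pen N, (cw N t.1.1.card).natAbs) with hM1
  have hF1 : 1 ≤ F := Nat.factorial_pos _
  have hN1 : 1 ≤ N.factorial := Nat.factorial_pos _
  have hM : ∀ t : Pen N, 2 + (cw N t.1.1.card).natAbs ≤ M1 := by
    intro t
    have h1 : (cw N t.1.1.card).natAbs ≤ ∑ t : Pen N, (cw N t.1.1.card).natAbs :=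
      Finset.single_le_sum (f := fun t : Pen N => (cw N t.1.1.card).natAbs)
        (fun _ _ => Nat.zero_le _) (Finset.mem_univ t)
    calc 2 + (cw N t.1.1.card).natAbs ≤ 1 * (2 + ∑ t : Pen N, (cw N t.1.1.card).natAbs) := by
          omega
      _ ≤ M1 := Nat.mul_le_mul_right _ hN1
  have hM2 : 1 < M1 := by
    have : 1 * 2 ≤ M1 := Nat.mul_le_mul hN1 (by omega)
    omega
  have hpos : ∀ t : Pen N, (F : ℤ) ≤ cw N t.1.1.card + F * M1 := by
    intro t
    have h1 : F * (2 + (cw N t.1.1.card).natAbs) ≤ F * M1 := Nat.mul_le_mul_left _ (hM t)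
    have h2 : 1 * (cw N t.1.1.card).natAbs ≤ F * (cw N t.1.1.card).natAbs :=
      Nat.mul_le_mul_right _ hF1
    have h3 : F * 2 + (cw N t.1.1.card).natAbs ≤ F * M1 := by
      rw [Nat.mul_add] at h1
      omega
    have h4 : ((F * 2 + (cw N t.1.1.card).natAbs : ℕ) : ℤ) ≤ ((F * M1 : ℕ) : ℤ) := by
      exact_mod_cast h3
    push_cast at h4
    have h5 : -(cw N t.1.1.card) ≤ |cw N t.1.1.card| := neg_le_abs _
    have h6 : (0 : ℤ) ≤ F := by positivity
    linarith
  have hb : ∀ t : Pen N, (((cw N t.1.1.card + F * M1).toNat : ℕ) : ℤ)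
      = cw N t.1.1.card + F * M1 := by
    intro t
    apply Int.toNat_of_nonneg
    have h6 : (0 : ℤ) ≤ F := by positivity
    linarith [hpos t]
  refine ⟨M1, fun t => (cw N t.1.1.card + F * M1).toNat, hM2, ?_, hb, ?_, ?_, ?_, ?_, ?_, ?_⟩
  · intro ℓ hℓ hle
    exact Dvd.dvd.mul_right ((Nat.Prime.dvd_factorial hℓ).mpr hle) _
  · have h0 : 0 < 2 * N := by omega
    have h1 : 1 < 2 * N := by omega
    let t0 : Pen N := ⟨({(⟨0, h0⟩ : Fin (2 * N))}, {(⟨1, h1⟩ : Fin (2 * N))}), by
      refine ⟨?_, ?_, ?_⟩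
      · simp
      · simp
      · simp⟩
    have h2 : (cw N t0.1.1.card + F * M1).toNat ≤
        ∑ t : Pen N, (cw N t.1.1.card + F * M1).toNat :=
      Finset.single_le_sum (f := fun t : Pen N => (cw N t.1.1.card + F * M1).toNat)
        (fun _ _ => Nat.zero_le _) (Finset.mem_univ t0)
    refine le_trans ?_ h2
    have h3 := hpos t0
    rw [← hb t0] at h3
    exact_mod_cast h3
  · intro t
    exact pr_hom N _
  · intro t
    have := pr_hom N t.1.2
    rw [← t.2.2.1] at this
    exact this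
  · intro t
    exact pr_ne N _
  · intro t
    exact pr_ne N _
  · have h1 := Pool.Agent.H89B.VD.t_total N hN
    have h2 : ((∑ t : Pen N, t.1.1.card * (cw N t.1.1.card + F * M1).toNat : ℕ) : ℤ)
        = ((F * (1 + M1 * ∑ t : Pen N, t.1.1.card) : ℕ) : ℤ) := by
      push_cast
      have h3 : ∀ t : Pen N, (t.1.1.card : ℤ) * ((cw N t.1.1.card + F * M1).toNat : ℤ)
          = cw N t.1.1.card * (t.1.1.card : ℤ) + F * M1 * (t.1.1.card : ℤ) := by
        intro t
        rw [hb t]
        ring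
      rw [Finset.sum_congr rfl (fun t _ => h3 t), Finset.sum_add_distrib, h1, ← Finset.mul_sum]
      ring
    exact_mod_cast h2

end Pool.Agent.Helper28K1.VD
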